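import Pool.Agent.helper78.EQ.Spec
import Pool.Agent.helper85.LD.G1
import Pool.Agent.helper44.DM.ZG

set_option autoImplicit false

open Complex MeasureTheory Set Metric

namespace Pool.Agent.EQ

open Pool.Agent.helper6.LD

/-- the box in which the Gamma function is bounded above and below -/
def helper52_box : Set ℂ := {w : ℂ | 1 / 2 ≤ w.re ∧ w.re ≤ 6 ∧ |w.im| ≤ 4}

theorem helper52_box_compact : IsCompact helper52_box := by
  have h1 : helper52_box = (Icc (1 / 2) 6 : Set ℝ) ×ℂ (Icc (-4) 4 : Set ℝ) := by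
    ext w
    simp only [helper52_box, mem_ofPred_eq, Complex.mem_reProdIm, mem_Icc, abs_le]
    tauto
  rw [h1]
  exact isCompact_Icc.reProdIm isCompact_Icc

theorem helper52_diffGamma {w : ℂ} (hw : 0 < w.re) : DifferentiableAt ℂ Complex.Gamma w := by
  refine Complex.differentiableAt_Gamma w fun m h => ?_
  rw [h] at hw
  simp only [neg_re, natCast_re] at hw
  have : (0 : ℝ) ≤ m := Nat.cast_nonneg m
  linarith

theorem helper52_gamma : ∃ c C : ℝ, 0 < c ∧ 0 < C ∧ ∀ w ∈ helper52_box,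
    c ≤ ‖Complex.Gamma w‖ ∧ ‖Complex.Gamma w‖ ≤ C := by
  have hpos : ∀ w ∈ helper52_box, 0 < w.re := fun w hw => lt_of_lt_of_le (by norm_num) hw.1
  have hcont : ContinuousOn (fun w => ‖Complex.Gamma w‖) helper52_box := fun w hw =>
    (helper52_diffGamma (hpos w hw)).continuousAt.norm.continuousWithinAt
  have hne : helper52_box.Nonempty := ⟨1, by
    refine ⟨?_, ?_, ?_⟩ <;> norm_num⟩
  obtain ⟨a, ha, hmin⟩ := helper52_box_compact.exists_isMinOn hne hcont
  obtain ⟨b, hb, hmax⟩ := helper52_box_compact.exists_isMaxOn hne hcont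
  have ha0 : 0 < ‖Complex.Gamma a‖ := norm_pos_iff.2 (Complex.Gamma_ne_zero_of_re_pos (hpos a ha))
  have hb0 : 0 < ‖Complex.Gamma b‖ := norm_pos_iff.2 (Complex.Gamma_ne_zero_of_re_pos (hpos b hb))
  exact ⟨_, _, ha0, hb0, fun w hw => ⟨isMinOn_iff.1 hmin w hw, isMaxOn_iff.1 hmax w hw⟩⟩

theorem helper52_cL (n : ℕ) : ‖cL n‖ ≤ Real.sqrt n := by
  unfold cL
  rw [Complex.norm_real, Real.norm_of_nonneg ArithmeticFunction.vonMangoldt_nonneg]
  rcases Nat.eq_zero_or_pos n with h0 | h0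
  · subst h0
    simp
  · have hn : (0 : ℝ) < n := by exact_mod_cast h0
    have h1 : ArithmeticFunction.vonMangoldt n ≤ Real.log n := ArithmeticFunction.vonMangoldt_le_log
    have hs : 0 < Real.sqrt n := Real.sqrt_pos.2 hn
    have h2 : Real.log n = 2 * Real.log (Real.sqrt n) := by
      rw [Real.log_sqrt hn.le]
      ring
    have h3 : Real.log (Real.sqrt n / 2) ≤ Real.sqrt n / 2 - 1 :=
      Real.log_le_sub_one_of_pos (by positivity)
    rw [Real.log_div hs.ne' (by norm_num)] at h3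
    have h4 : Real.log 2 ≤ 1 := by
      have := Real.log_two_lt_d9
      linarith
    linarith

theorem helper52_Ds {s : ℂ} (hs : 1 < s.re) :
    Ds cL s = -deriv riemannZeta s / riemannZeta s := by
  rw [← ArithmeticFunction.LSeries_vonMangoldt_eq_deriv_riemannZeta_div hs]
  unfold Ds LSeries
  refine tsum_congr fun n => ?_
  rw [LSeries.term_def]
  split_ifs with h
  · subst h
    simp [cL]
  · rw [Complex.cpow_neg, div_eq_mul_inv]
    rfl

theorem helper52_zdiff {s : ℂ} (hs : s ≠ 1) : DifferentiableAt ℂ (deriv riemannZeta) s := by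
  have h1 : DifferentiableOn ℂ riemannZeta {s : ℂ | s ≠ 1} := fun z hz =>
    (differentiableAt_riemannZeta hz).differentiableWithinAt
  have h2 : IsOpen {s : ℂ | s ≠ 1} := isOpen_ne
  exact (h1.deriv h2).differentiableAt (h2.mem_nhds hs)

theorem helper52_zder {C : ℝ} (hC0 : 0 < C)
    (hC : ∀ s : ℂ, 1 / 8 ≤ s.re → 1 ≤ |s.im| → ‖riemannZeta s‖ ≤ C * ‖s‖)
    {s : ℂ} (h1 : 1 / 4 ≤ s.re) (h2 : 2 ≤ s.im) : ‖deriv riemannZeta s‖ ≤ 8 * C * (‖s‖ + 1) := by
  have hball : ∀ z ∈ closedBall s (1 / 8), 1 / 8 ≤ z.re ∧ 1 ≤ z.im ∧ ‖z‖ ≤ ‖s‖ + 1 := by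
    intro z hz
    rw [mem_closedBall, dist_eq_norm] at hz
    have e1 := Complex.abs_re_le_norm (z - s)
    have e2 := Complex.abs_im_le_norm (z - s)
    rw [sub_re, abs_le] at e1
    rw [sub_im, abs_le] at e2
    refine ⟨by linarith [e1.1], by linarith [e2.1], ?_⟩
    have e3 : ‖z‖ ≤ ‖z - s‖ + ‖s‖ := by
      calc ‖z‖ = ‖(z - s) + s‖ := by ring_nf
        _ ≤ _ := norm_add_le _ _
    linarith
  have hne : ∀ z ∈ closedBall s (1 / 8), z ≠ 1 := by
    intro z hz h
    have := (hball z hz).2.1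
    rw [h] at this
    norm_num at this
  have h3 := Complex.norm_deriv_le_of_forall_mem_sphere_norm_le (f := riemannZeta) (c := s)
    (R := 1 / 8) (C := C * (‖s‖ + 1)) (by norm_num) ?_ ?_
  · calc ‖deriv riemannZeta s‖ ≤ C * (‖s‖ + 1) / (1 / 8) := h3
      _ = 8 * C * (‖s‖ + 1) := by ring
  · refine DifferentiableOn.diffContOnCl fun z hz => ?_
    rw [closure_ball s (by norm_num)] at hz
    exact (differentiableAt_riemannZeta (hne z hz)).differentiableWithinAt
  · intro z hz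
    have hz' := sphere_subset_closedBall hz
    obtain ⟨b1, b2, b3⟩ := hball z hz'
    refine (hC z b1 (by rw [abs_of_nonneg (by linarith)]; exact b2)).trans ?_
    exact mul_le_mul_of_nonneg_left b3 hC0.le

theorem helper52_thr (hTHR : THR_stmt) (δ B σ X K : ℝ) (hδ : 0 < δ) (hδ8 : δ ≤ 1 / 8)
    (hB : 0 ≤ B) (hσ : 1 / 2 ≤ σ) (hσ1 : σ ≤ 1 - 2 * δ) (hX : 3 ≤ X) (hK0 : 0 < K) (hKX : K ≤ X)
    (D : ℂ → ℂ) (c : ℂ) (hd : DifferentiableOn ℂ D (ball c (3 - σ - δ)))
    (h1 : ∀ z ∈ closedBall c 1, ‖D z‖ ≤ K * (X ^ (2 + 10 / δ * (B + 3))) ^ (-(1 / 2 : ℝ)))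
    (h3 : ∀ z ∈ ball c (3 - σ - δ), ‖D z‖ ≤ X ^ (3 : ℝ)) :
    ∀ z ∈ closedBall c (3 - σ - 3 * δ / 2), ‖D z‖ ≤ X ^ (-B) := by
  intro z hz
  have hX0 : 0 < X := by linarith
  have hX1 : 1 ≤ X := by linarith
  set A : ℝ := 2 + 10 / δ * (B + 3) with hA
  have hA0 : 0 ≤ A := by positivity
  set r₂ : ℝ := 3 - σ - 3 * δ / 2 with hr₂
  set r₃ : ℝ := 3 - σ - δ with hr₃
  have hN : (X ^ A) ^ (-(1 / 2 : ℝ)) = X ^ (-(A / 2)) := by
    rw [← Real.rpow_mul hX0.le]
    congr 1
    ring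
  rw [hN] at h1
  set M₁ : ℝ := K * X ^ (-(A / 2)) with hM₁
  have hM₁0 : 0 < M₁ := by positivity
  have hM₁X : M₁ ≤ X ^ (1 - A / 2) := by
    have : X ^ (1 - A / 2) = X * X ^ (-(A / 2)) := by
      rw [sub_eq_add_neg, Real.rpow_add hX0, Real.rpow_one]
    rw [this]
    exact mul_le_mul_of_nonneg_right hKX (by positivity)
  have hM₁3 : M₁ ≤ X ^ (3 : ℝ) := hM₁X.trans (Real.rpow_le_rpow_of_exponent_le hX1 (by linarith))
  have hr₂1 : 1 ≤ r₂ := by rw [hr₂]; linarith
  have hr₂₃ : r₂ < r₃ := by rw [hr₂, hr₃]; linarith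
  have hr₃0 : 0 < r₃ := by linarith
  have hr₂0 : 0 < r₂ := by linarith
  have hr₃5 : r₃ ≤ 5 / 2 := by rw [hr₃]; linarith
  have key := hTHR D c 1 r₂ r₃ M₁ (X ^ (3 : ℝ)) one_pos hr₂1 hr₂₃ hM₁0 hM₁3 hd h1 h3 z hz
  rw [div_one, div_one] at key
  set θ : ℝ := Real.log r₂ / Real.log r₃ with hθ
  have hlog₃ : 0 < Real.log r₃ := Real.log_pos (by linarith)
  have hlog₃1 : Real.log r₃ ≤ 1 := by
    rw [Real.log_le_iff_le_exp hr₃0]
    have := Real.exp_one_gt_d9
    linarith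
  have hθ1 : θ ≤ 1 := by
    rw [hθ, div_le_one hlog₃]
    exact Real.log_le_log hr₂0 hr₂₃.le
  have hθ0 : 0 ≤ θ := div_nonneg (Real.log_nonneg hr₂1) hlog₃.le
  have hθδ : δ / 5 ≤ 1 - θ := by
    have e1 : 1 - θ = Real.log (r₃ / r₂) / Real.log r₃ := by
      rw [hθ, Real.log_div hr₃0.ne' hr₂0.ne']
      field_simp
    have e2 : δ / 5 ≤ Real.log (r₃ / r₂) := by
      have e3 := Real.one_sub_inv_le_log_of_pos (x := r₃ / r₂) (by positivity)
      have e4 : 1 - (r₃ / r₂)⁻¹ = (δ / 2) / r₃ := by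
        rw [inv_div]
        have : δ / 2 = r₃ - r₂ := by rw [hr₂, hr₃]; ring
        rw [this]
        field_simp
      rw [e4] at e3
      refine le_trans ?_ e3
      rw [div_le_div_iff₀ (by norm_num) hr₃0]
      nlinarith
    rw [e1, le_div_iff₀ hlog₃]
    have : δ / 5 * Real.log r₃ ≤ δ / 5 * 1 := mul_le_mul_of_nonneg_left hlog₃1 (by positivity)
    linarith
  refine key.trans ?_
  have s1 : M₁ ^ (1 - θ) ≤ X ^ ((1 - A / 2) * (1 - θ)) := by
    rw [Real.rpow_mul hX0.le]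
    exact Real.rpow_le_rpow hM₁0.le hM₁X (by linarith)
  have s2 : (X ^ (3 : ℝ)) ^ θ ≤ X ^ (3 : ℝ) := by
    rw [← Real.rpow_mul hX0.le]
    exact Real.rpow_le_rpow_of_exponent_le hX1 (by linarith)
  calc M₁ ^ (1 - θ) * (X ^ (3 : ℝ)) ^ θ ≤ X ^ ((1 - A / 2) * (1 - θ)) * X ^ (3 : ℝ) :=
        mul_le_mul s1 s2 (by positivity) (by positivity)
    _ = X ^ ((1 - A / 2) * (1 - θ) + 3) := (Real.rpow_add hX0 _ _).symm
    _ ≤ X ^ (-B) := by
        refine Real.rpow_le_rpow_of_exponent_le hX1 ?_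
        have e5 : 1 - A / 2 = -(5 / δ * (B + 3)) := by rw [hA]; ring
        have e6 : B + 3 ≤ 5 / δ * (B + 3) * (1 - θ) := by
          have : 5 / δ * (B + 3) * (δ / 5) = B + 3 := by field_simp
          calc B + 3 = 5 / δ * (B + 3) * (δ / 5) := this.symm
            _ ≤ 5 / δ * (B + 3) * (1 - θ) := mul_le_mul_of_nonneg_left hθδ (by positivity)
        rw [e5]
        linarith

theorem helper52_circ (c : ℂ) (r K : ℝ) (hr0 : 0 < r) (hr1 : r ≤ 1 / 32) (hK : K ≤ 1)
    (F H : ℂ → ℂ) (hF : ContinuousOn F (sphere c r))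
    (hH : DifferentiableOn ℂ H (closedBall c r)) (hb : ∀ z ∈ sphere c r, ‖F z + H z‖ ≤ K) (m : ℕ)
    (hm : 1 ≤ m) (hint : (∮ z in C(c, r), F z) = 2 * (Real.pi : ℂ) * I * m) : False := by
  have hHc : ContinuousOn H (sphere c r) := hH.continuousOn.mono sphere_subset_closedBall
  have h1 : (∮ z in C(c, r), H z) = 0 := by
    refine DiffContOnCl.circleIntegral_eq_zero hr0.le ?_
    exact DifferentiableOn.diffContOnCl (by rwa [closure_ball c hr0.ne'])
  have h2 := circleIntegral.integral_add (hF.circleIntegrable hr0.le) (hHc.circleIntegrable hr0.le)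
  rw [h1, add_zero, hint] at h2
  have h3 := circleIntegral.norm_integral_le_of_norm_le_const hr0.le hb
  rw [h2] at h3
  have h4 : ‖2 * (Real.pi : ℂ) * I * m‖ = 2 * Real.pi * m := by
    simp [abs_of_pos Real.pi_pos]
  rw [h4] at h3
  have h5 : (1 : ℝ) ≤ m := by exact_mod_cast hm
  have h6 := Real.pi_pos
  have h7 : 2 * Real.pi * r * K ≤ 2 * Real.pi * (1 / 32) * 1 := by
    have : r * K ≤ 1 / 32 := by nlinarith
    nlinarith
  nlinarith

theorem DTL (hTHR : THR_stmt) (hGFA : GFA_stmt) (hGFM : GFM_stmt) (hLBC : LBC_stmt)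
    (hARG : ARG_stmt) : DTL_stmt := by
  intro δ hδ hδ8
  obtain ⟨Cg, hCg0, hCg⟩ := zeta_growth
  obtain ⟨Cr, hCr0, hCr⟩ := Pool.Agent.helper84.DM.zeta_right
  obtain ⟨CF, hCF0, hCF⟩ := hGFA
  obtain ⟨CM, hCM0, hCM⟩ := hGFM
  obtain ⟨CL, hCL0, hCL⟩ := hLBC δ hδ hδ8
  obtain ⟨cΓ, CΓ, hcΓ0, hCΓ0, hΓ⟩ := helper52_gamma
  set A : ℝ := 2 + 10 / δ * (CL + 1 + 3) with hA
  set K : ℝ := Real.exp Cr * CM with hK
  set K3 : ℝ := 2 * Cg * (CF + 1 / δ) + 24 * Cg * CΓ with hK3
  set X₀ : ℝ := max 12 (max K (max K3 (2 ^ CL / cΓ))) with hX₀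
  have hK0 : 0 < K := by positivity
  have hA1 : 1 ≤ A := by
    have : 0 ≤ 10 / δ * (CL + 1 + 3) := by positivity
    linarith
  refine ⟨A, X₀, hA1, le_trans (by norm_num) (le_max_left _ _), ?_⟩
  intro X σ t ρ hX hσ ht htX hρ hσρ hρt
  by_contra hcon
  push Not at hcon
  have hX12 : 12 ≤ X := (le_max_left _ _).trans hX
  have hXK : K ≤ X := ((le_max_left _ _).trans (le_max_right _ _)).trans hX
  have hXK3 : K3 ≤ X :=
    (((le_max_left _ _).trans (le_max_right _ _)).trans (le_max_right _ _)).trans hX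
  have hXΓ : 2 ^ CL / cΓ ≤ X :=
    (((le_max_right _ _).trans (le_max_right _ _)).trans (le_max_right _ _)).trans hX
  have hX0 : 0 < X := by linarith
  have hX1 : 1 ≤ X := by linarith
  have hρ1 : ρ.re < 1 := by
    by_contra h
    exact riemannZeta_ne_zero_of_one_le_re (not_lt.1 h) hρ
  have hσ1 : σ ≤ 1 - 2 * δ := by linarith
  have hN1 : 1 ≤ X ^ A := Real.one_le_rpow hX1 (by linarith)
  obtain ⟨hGd, hGb⟩ := hCF cL (X ^ A) t helper52_cL hN1
  have hGb' : ∀ w : ℂ, σ + δ ≤ w.re → w.re ≤ 6 → ‖Gf cL (X ^ A) t w‖ ≤ CF + X / δ :=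
    fun w h1 h2 => hGb σ δ X w hσ hδ hX0.le (fun x hx1 hx2 => (hcon x hx1 hx2).le) h1 h2
  have hGM := fun w h1 h2 => hCM cL (X ^ A) t w helper52_cL hN1 h1 h2
  set G : ℂ → ℂ := Gf cL (X ^ A) t with hG
  set D : ℂ → ℂ := fun w => riemannZeta (w + t * I) * G w +
    deriv riemannZeta (w + t * I) * Complex.Gamma w with hD
  set c : ℂ := (3 : ℂ) + ((ρ.im - t : ℝ) : ℂ) * I with hc
  have hcre : c.re = 3 := by simp [hc]
  have hcim : c.im = ρ.im - t := by simp [hc]
  have hsre : ∀ w : ℂ, (w + t * I).re = w.re := fun w => by simp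
  have hsim : ∀ w : ℂ, (w + t * I).im = w.im + t := fun w => by simp
  rw [abs_le] at hρt
  have hreg : ∀ w ∈ ball c (3 - σ - δ), σ + δ < w.re ∧ w.re < 6 ∧ |w.im| < 4 := by
    intro w hw
    rw [mem_ball, dist_eq_norm] at hw
    have e1 := (Complex.abs_re_le_norm (w - c)).trans_lt hw
    have e2 := (Complex.abs_im_le_norm (w - c)).trans_lt hw
    rw [sub_re, hcre, abs_lt] at e1
    rw [sub_im, hcim, abs_lt] at e2
    refine ⟨by linarith [e1.1], by linarith [e1.2], ?_⟩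
    rw [abs_lt]
    constructor <;> linarith [e2.1, e2.2, hρt.1, hρt.2]
  have hreg1 : ∀ w ∈ closedBall c 1, 2 ≤ w.re ∧ w.re ≤ 4 := by
    intro w hw
    rw [mem_closedBall, dist_eq_norm] at hw
    have e1 := (Complex.abs_re_le_norm (w - c)).trans hw
    rw [sub_re, hcre, abs_le] at e1
    exact ⟨by linarith [e1.1], by linarith [e1.2]⟩
  have hs1 : ∀ w : ℂ, |w.im| < 4 → w + t * I ≠ 1 := by
    intro w hw h
    have h' := congrArg Complex.im h
    rw [hsim, one_im] at h'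
    rw [abs_lt] at hw
    linarith [hw.1]
  have hdiffshift : ∀ w : ℂ, DifferentiableAt ℂ (fun w : ℂ => w + t * I) w := fun w => by fun_prop
  have hZd : ∀ w : ℂ, |w.im| < 4 → DifferentiableAt ℂ (fun w : ℂ => riemannZeta (w + t * I)) w :=
    fun w hw => (differentiableAt_riemannZeta (hs1 w hw)).comp w (hdiffshift w)
  have hZ'd : ∀ w : ℂ, |w.im| < 4 →
      DifferentiableAt ℂ (fun w : ℂ => deriv riemannZeta (w + t * I)) w :=
    fun w hw => DifferentiableAt.comp w (helper52_zdiff (hs1 w hw)) (hdiffshift w)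
  have hDd : DifferentiableOn ℂ D (ball c (3 - σ - δ)) := by
    intro w hw
    obtain ⟨r1, r2, r3⟩ := hreg w hw
    have g1 : DifferentiableAt ℂ Complex.Gamma w := helper52_diffGamma (by linarith)
    exact (((hZd w r3).mul (hGd w)).add ((hZ'd w r3).mul g1)).differentiableWithinAt
  have hD1 : ∀ z ∈ closedBall c 1, ‖D z‖ ≤ K * (X ^ A) ^ (-(1 / 2 : ℝ)) := by
    intro w hw
    obtain ⟨r1, r2⟩ := hreg1 w hw
    have hz := hCr (w + t * I) (by rw [hsre]; linarith)
    have hz0 : riemannZeta (w + t * I) ≠ 0 := by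
      rw [← norm_pos_iff]
      exact lt_of_lt_of_le (Real.exp_pos _) hz.1
    have e1 : D w = riemannZeta (w + t * I) *
        (G w - Complex.Gamma w * Ds cL (w + t * I)) := by
      rw [helper52_Ds (s := w + t * I) (by rw [hsre]; linarith)]
      simp only [hD]
      field_simp
      ring
    rw [e1, norm_mul]
    calc ‖riemannZeta (w + t * I)‖ * ‖G w - Complex.Gamma w * Ds cL (w + t * I)‖
        ≤ Real.exp Cr * (CM * (X ^ A) ^ (-(1 / 2 : ℝ))) :=
          mul_le_mul hz.2 (hGM w r1 (by linarith)) (norm_nonneg _) (Real.exp_pos _).le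
      _ = K * (X ^ A) ^ (-(1 / 2 : ℝ)) := by rw [hK]; ring
  have hD3 : ∀ z ∈ ball c (3 - σ - δ), ‖D z‖ ≤ X ^ (3 : ℝ) := by
    intro w hw
    obtain ⟨r1, r2, r3⟩ := hreg w hw
    have r3' := r3
    rw [abs_lt] at r3'
    have e1 : ‖w + t * I‖ ≤ 2 * X := by
      have e2 := Complex.norm_le_abs_re_add_abs_im (w + t * I)
      rw [hsre, hsim] at e2
      have e3 : |w.re| ≤ 6 := by
        rw [abs_le]
        constructor <;> linarith
      have e4 : |w.im + t| ≤ 4 + X := by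
        rw [abs_le]
        constructor <;> linarith
      linarith
    have e2 : ‖riemannZeta (w + t * I)‖ ≤ Cg * (2 * X) := by
      refine (hCg _ (by rw [hsre]; linarith) ?_).trans (mul_le_mul_of_nonneg_left e1 hCg0.le)
      rw [hsim, abs_of_nonneg (by linarith)]
      linarith
    have e3 : ‖deriv riemannZeta (w + t * I)‖ ≤ 8 * Cg * (2 * X + 1) := by
      refine (helper52_zder hCg0 hCg (by rw [hsre]; linarith) (by rw [hsim]; linarith)).trans ?_
      exact mul_le_mul_of_nonneg_left (by linarith) (by positivity)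
    have e4 : ‖G w‖ ≤ X * (CF + 1 / δ) := by
      refine (hGb' w r1.le r2.le).trans ?_
      have : X * (CF + 1 / δ) = X * CF + X / δ := by ring
      rw [this]
      nlinarith
    have e5 : ‖Complex.Gamma w‖ ≤ CΓ := (hΓ w ⟨by linarith, r2.le, r3.le⟩).2
    calc ‖D w‖ ≤ ‖riemannZeta (w + t * I)‖ * ‖G w‖ +
          ‖deriv riemannZeta (w + t * I)‖ * ‖Complex.Gamma w‖ := by
          refine (norm_add_le _ _).trans ?_
          rw [norm_mul, norm_mul]
      _ ≤ Cg * (2 * X) * (X * (CF + 1 / δ)) + 8 * Cg * (2 * X + 1) * CΓ :=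
          add_le_add (mul_le_mul e2 e4 (norm_nonneg _) (by positivity))
            (mul_le_mul e3 e5 (norm_nonneg _) (by positivity))
      _ ≤ X ^ 2 * K3 := by
          have f1 : 8 * Cg * (2 * X + 1) * CΓ ≤ X ^ 2 * (24 * Cg * CΓ) := by
            have f2 : 2 * X + 1 ≤ 3 * X ^ 2 := by nlinarith
            have f3 : 0 ≤ 8 * Cg * CΓ := by positivity
            nlinarith
          have f4 : Cg * (2 * X) * (X * (CF + 1 / δ)) = X ^ 2 * (2 * Cg * (CF + 1 / δ)) := by ring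
          have f5 : X ^ 2 * K3 = X ^ 2 * (2 * Cg * (CF + 1 / δ)) + X ^ 2 * (24 * Cg * CΓ) := by
            rw [hK3]
            ring
          rw [f5, f4]
          linarith
      _ ≤ X ^ 2 * X := mul_le_mul_of_nonneg_left hXK3 (by positivity)
      _ = X ^ (3 : ℝ) := by
          have : (3 : ℝ) = ((3 : ℕ) : ℝ) := by norm_num
          rw [this, Real.rpow_natCast]
          ring
  have hDB := helper52_thr hTHR δ (CL + 1) σ X K hδ hδ8 (by linarith) hσ hσ1 (by linarith) hK0 hXK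
    D c hDd hD1 hD3
  obtain ⟨r, hr1, hr2, hrb⟩ := hCL ρ (by linarith) hρ1.le (by linarith [hρt.1])
  have hr0 : 0 < r := by linarith
  have hr32 : r ≤ 1 / 32 := by linarith
  set w₀ : ℂ := ρ - t * I with hw₀
  have hw₀re : w₀.re = ρ.re := by simp [hw₀]
  have hw₀im : w₀.im = ρ.im - t := by simp [hw₀]
  have hbox : ∀ z ∈ closedBall w₀ r, z ∈ helper52_box ∧ |z.im| < 4 := by
    intro z hz
    rw [mem_closedBall, dist_eq_norm] at hz
    have e1 := (Complex.abs_re_le_norm (z - w₀)).trans hz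
    have e2 := (Complex.abs_im_le_norm (z - w₀)).trans hz
    rw [sub_re, hw₀re, abs_le] at e1
    rw [sub_im, hw₀im, abs_le] at e2
    have e3 : |z.im| ≤ 3 := by
      rw [abs_le]
      constructor <;> linarith [e2.1, e2.2, hρt.1, hρt.2]
    exact ⟨⟨by linarith [e1.1], by linarith [e1.2], by linarith⟩, by linarith⟩
  have hin : ∀ z ∈ sphere w₀ r, z ∈ closedBall c (3 - σ - 3 * δ / 2) := by
    intro z hz
    rw [mem_sphere, dist_eq_norm] at hz
    rw [mem_closedBall, dist_eq_norm]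
    have e1 : w₀ - c = ((ρ.re - 3 : ℝ) : ℂ) := by
      apply Complex.ext
      · rw [sub_re, hw₀re, hcre, ofReal_re]
      · rw [sub_im, hw₀im, hcim, ofReal_im]
        ring
    have e2 : ‖w₀ - c‖ = 3 - ρ.re := by
      rw [e1, Complex.norm_real, Real.norm_eq_abs, abs_of_nonpos (by linarith)]
      ring
    calc ‖z - c‖ = ‖(z - w₀) + (w₀ - c)‖ := by ring_nf
      _ ≤ ‖z - w₀‖ + ‖w₀ - c‖ := norm_add_le _ _
      _ ≤ _ := by
        rw [hz, e2]
        linarith
  set f : ℂ → ℂ := fun w => riemannZeta (w + t * I) with hf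
  have hfd : ∀ z, deriv f z = deriv riemannZeta (z + t * I) := fun z => by
    rw [hf]
    exact deriv_comp_add_const _ _ _
  have hlow : ∀ z ∈ sphere w₀ r, (2 * X) ^ (-CL) ≤ ‖f z‖ := by
    intro z hz
    rw [mem_sphere, dist_eq_norm] at hz
    have e1 : z + t * I - ρ = z - w₀ := by
      rw [hw₀]
      ring
    have e2 := hrb (z + t * I) (by rw [e1]; exact hz)
    refine le_trans ?_ e2
    refine Real.rpow_le_rpow_of_nonpos (by linarith [hρt.1]) (by linarith [hρt.2]) (by linarith)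
  have h2X : (0 : ℝ) < (2 * X) ^ (-CL) := by positivity
  have hfan : AnalyticOnNhd ℂ f (closedBall w₀ r) := by
    have o1 : IsOpen {w : ℂ | |w.im| < 4} := isOpen_lt (by fun_prop) (by fun_prop)
    have o2 : DifferentiableOn ℂ f {w : ℂ | |w.im| < 4} := fun w hw =>
      (hZd w hw).differentiableWithinAt
    exact (o2.analyticOnNhd o1).mono fun z hz => (hbox z hz).2
  have hfne : ∀ z ∈ sphere w₀ r, f z ≠ 0 := fun z hz => by
    rw [← norm_pos_iff]
    exact lt_of_lt_of_le h2X (hlow z hz)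
  obtain ⟨m, hm, hint⟩ := hARG f w₀ r hr0 hfan hfne ⟨w₀, mem_ball_self hr0, by
    simp only [hf, hw₀, sub_add_cancel]
    exact hρ⟩
  refine helper52_circ w₀ r (X ^ (-(CL + 1)) / ((2 * X) ^ (-CL) * cΓ)) hr0 hr32 ?_
    (fun z => deriv f z / f z) (fun z => G z / Complex.Gamma z) ?_ ?_ ?_ m hm hint
  · rw [div_le_one (by positivity)]
    have e1 : X ^ (-(CL + 1)) = X ^ (-CL) * X⁻¹ := by
      rw [neg_add, Real.rpow_add hX0, Real.rpow_neg_one]
    have e2 : (2 * X) ^ (-CL) = (2 ^ CL)⁻¹ * X ^ (-CL) := by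
      rw [Real.mul_rpow (by norm_num) hX0.le, Real.rpow_neg (by norm_num : (0 : ℝ) ≤ 2)]
    rw [e1, e2]
    have e3 : X⁻¹ ≤ (2 ^ CL)⁻¹ * cΓ := by
      rw [div_le_iff₀ hcΓ0] at hXΓ
      rw [inv_mul_eq_div, inv_eq_one_div, div_le_div_iff₀ hX0 (by positivity)]
      linarith
    have e4 : 0 < X ^ (-CL) := by positivity
    calc X ^ (-CL) * X⁻¹ ≤ X ^ (-CL) * ((2 ^ CL)⁻¹ * cΓ) := mul_le_mul_of_nonneg_left e3 e4.le
      _ = (2 ^ CL)⁻¹ * X ^ (-CL) * cΓ := by ring
  · refine ContinuousOn.div ?_ ?_ hfne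
    · intro z hz
      have hz' := (hbox z (sphere_subset_closedBall hz)).2
      have e1 : ContinuousAt (fun w : ℂ => deriv riemannZeta (w + t * I)) z :=
        (hZ'd z hz').continuousAt
      refine ContinuousAt.continuousWithinAt ?_
      refine e1.congr (Filter.Eventually.of_forall fun w => ?_)
      exact (hfd w).symm
    · exact hfan.continuousOn.mono sphere_subset_closedBall
  · intro z hz
    have hz' := hbox z hz
    have hre : 0 < z.re := lt_of_lt_of_le (by norm_num) hz'.1.1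
    exact ((hGd z).div (helper52_diffGamma hre)
      (Complex.Gamma_ne_zero_of_re_pos hre)).differentiableWithinAt
  · intro z hz
    have hz' := hbox z (sphere_subset_closedBall hz)
    have hre : 0 < z.re := lt_of_lt_of_le (by norm_num) hz'.1.1
    have hΓ0 : Complex.Gamma z ≠ 0 := Complex.Gamma_ne_zero_of_re_pos hre
    have hf0 : f z ≠ 0 := hfne z hz
    have e1 : deriv f z / f z + G z / Complex.Gamma z = D z / (f z * Complex.Gamma z) := by
      rw [hfd, div_add_div _ _ hf0 hΓ0]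
      congr 1
      simp only [hD, hf]
      ring
    rw [e1, norm_div, norm_mul]
    refine div_le_div₀ (by positivity) (hDB z (hin z hz)) (by positivity) ?_
    exact mul_le_mul (hlow z hz) (hΓ z hz'.1).1 hcΓ0.le (norm_nonneg _)

end Pool.Agent.EQ
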